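import Mathlib
import Pool.Agent.H668R3.OPN.Asym

/-!
The number of odd perfect numbers up to `x` is at most `x ^ ((log 2 / 2 + o(1)) / log log x)`.

Proof. An odd perfect number `N` is determined by its smallest prime factor (which is less than
`2 ω(N)`) and by its exponents: if `A` is a unitary divisor of `N`, `1 < A < N`, then `σ(A)` has an
odd prime factor not dividing `A`, and the least such prime divides `N / A`. All exponents but one
are even. Exponents of the primes below `log x / (log log x) ^ 3` are recorded in a table, the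
halves of the other exponents form a composition of a number at most `log x / (2 log z) + 1`.
-/

set_option autoImplicit false

namespace Pool.Agent.Results.MP_f02ea4_nt.CountUpTo

open Pool.Agent.H668R3.OPN

/-- For every `ε > 0` and all large `x` there are at most `x ^ ((log 2 / 2 + ε) / log log x)` odd
perfect numbers up to `x`. -/
theorem result : ∀ ε : ℝ, 0 < ε → ∀ᶠ x : ℕ in Filter.atTop,
    ({N : ℕ | N ≤ x ∧ Odd N ∧ N.Perfect}.ncard : ℝ) ≤
      (x : ℝ) ^ ((Real.log 2 / 2 + ε) / Real.log (Real.log x)) := by
  intro ε hε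
  filter_upwards [asym ε hε] with x hx
  have h : {N : ℕ | N ≤ x ∧ Odd N ∧ N.Perfect} = {N : ℕ | OP N ∧ N ≤ x} := by
    ext N
    constructor
    · rintro ⟨h1, h2, h3⟩
      exact ⟨⟨h2, (Nat.perfect_iff_sum_divisors_eq_two_mul h3.2).1 h3⟩, h1⟩
    · rintro ⟨h1, h2⟩
      exact ⟨h2, h1.1, (Nat.perfect_iff_sum_divisors_eq_two_mul h1.pos).2 h1.2⟩
  rw [h]
  exact hx

end Pool.Agent.Results.MP_f02ea4_nt.CountUpTo
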