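import Mathlib
import Pool.Agent.H298R3.Opn.Main
import Pool.Agent.H298R3.Opn.PrimePower

set_option autoImplicit false

/-!
# Odd perfect numbers `p ^ α * (q₁ ⋯ q_r) ^ (2 β)`: the number `r` is `O(β (log β) ^ 3)`

Put `n = 2 β + 1`.  A congruence modulo `p` shows that `n` is not a power of `p`.
Write `n = p ^ e * m` with `p ∤ m` and `D(q) = (q ^ n - 1) / (q ^ (p ^ e) - 1)`.
The prime factors of the numbers `D(q)` other than `p` lie in a set `S` of at most `n ω(m)` primes,
each of which divides at most `2 β` of the numbers `D(q)`.  So most `D(q)` have few prime factors,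
and then `D(q)` is divisible by a large prime power `s ^ v`, `s ∈ S`, or by a large power of `p`.
The primes `q` with a large power `s ^ v ∣ D(q)` are `n`-th roots of unity modulo `s ^ v`.  Since
there are at most `n` such roots, while the products of subsets (or the monomials) in a few such
primes are pairwise distinct, primes of this kind are few and far between.
For `s = p` this is combined with the descent bound `N < (2 k) ^ (4 ^ k)`.
The same argument works when the exponents `a(q) ≤ b` are different, but `n ∣ a(q) + 1` for all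
`q`, and `n` is not a power of `p`.
-/

namespace Pool.Agent.Results.MP_f02ea4_nt.EqualExponents
open Finset
open Pool.Agent.H298R3.Opn
open Pool.Agent.H298R3.Opn.Data

variable {N p α b n e m : ℕ} {Q : Finset ℕ} {a : ℕ → ℕ}

theorem main (H : Data N p α b n e m Q a) (hbig : 38025 ≤ n) {h : ℕ} (hbh : b + 1 ≤ h * n) :
    Q.card ≤ 4 * h * (b + 1) * n.primeFactors.card *
      ((Nat.log 2 (b + 1) + 1) * (Nat.log 2 (b + 1) + 3)) + 2 := by
  classical
  rcases Q.eq_empty_or_nonempty with hQe | ⟨q₁, hq₁⟩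
  · rw [hQe]; simp
  set L := Nat.log 2 (b + 1) + 1 with hL
  have hL1 : 1 ≤ L := by omega
  have hbL' : b + 1 < 2 ^ L := Nat.lt_pow_succ_log_self (by norm_num) (b + 1)
  have hbL : b < 2 ^ L := by omega
  have hnb : n ≤ b + 1 := by
    have h1 := Nat.le_of_dvd (Nat.succ_pos _) (H.han q₁ hq₁)
    have h2 := H.hab q₁ hq₁
    omega
  have hnL : n < 2 ^ L := by omega
  have hh : 1 ≤ h := by
    rcases Nat.eq_zero_or_pos h with h0 | h0
    · rw [h0, zero_mul] at hbh; omega
    · exact h0
  set t := n / (6 * L) with ht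
  set v : ℕ → ℕ → ℕ := fun s q => (D p e m q).factorization s with hv
  set T : ℕ → Finset ℕ := fun q => (S m Q).filter (fun s => s ∣ D p e m q) with hT
  set E1 := Q.filter (fun q => t < (T q).card) with hE1
  set E2 : ℕ → Finset ℕ := fun s => Q.filter (fun q => q ^ (2 * L) ≤ s ^ v s q) with hE2
  set E3 := Q.filter (fun q => q ^ n ≤ (p ^ v p q) ^ 3) with hE3
  -- the cover
  have hcov : Q ⊆ E1 ∪ (S m Q).biUnion E2 ∪ E3 := by
    intro q hq
    by_contra hcon
    rw [Finset.mem_union, Finset.mem_union, Finset.mem_biUnion] at hcon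
    push Not at hcon
    obtain ⟨⟨h1, h2⟩, h3⟩ := hcon
    have hq3 := H.three_le hq
    have h1' : (T q).card ≤ t := by
      by_contra hc
      exact h1 (Finset.mem_filter.2 ⟨hq, by omega⟩)
    have h3' : (p ^ v p q) ^ 3 < q ^ n := by
      by_contra hc
      exact h3 (Finset.mem_filter.2 ⟨hq, by omega⟩)
    have h2' : ∀ s ∈ T q, s ^ v s q ≤ q ^ (2 * L) := by
      intro s hs
      by_contra hc
      exact h2 s (Finset.mem_filter.1 hs).1 (Finset.mem_filter.2 ⟨hq, by omega⟩)
    have h4 : (∏ s ∈ T q, s ^ v s q) ^ 3 ≤ q ^ n := by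
      calc (∏ s ∈ T q, s ^ v s q) ^ 3 ≤ (∏ s ∈ T q, q ^ (2 * L)) ^ 3 :=
            Nat.pow_le_pow_left (Finset.prod_le_prod' h2') 3
        _ = q ^ (2 * L * (T q).card * 3) := by
            rw [Finset.prod_const, ← pow_mul, ← pow_mul]
            congr 1
            ring
        _ ≤ q ^ n := by
            refine Nat.pow_le_pow_right (by omega) ?_
            calc 2 * L * (T q).card * 3 ≤ 2 * L * t * 3 :=
                  Nat.mul_le_mul_right _ (Nat.mul_le_mul_left _ h1')
              _ = 6 * L * t := by ring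
              _ ≤ n := Nat.mul_div_le n (6 * L)
    have h5 := H.D_ge hq
    have h6 := Nat.pow_le_pow_left (H.D_le_prod hq) 3
    have h7 : (p ^ v p q * ∏ s ∈ T q, s ^ v s q) ^ 3 < q ^ n * q ^ n := by
      rw [mul_pow]
      have h8 : 0 < q ^ n := pow_pos (by omega) _
      calc (p ^ v p q) ^ 3 * (∏ s ∈ T q, s ^ v s q) ^ 3 ≤ (p ^ v p q) ^ 3 * q ^ n :=
            Nat.mul_le_mul_left _ h4
        _ < q ^ n * q ^ n := Nat.mul_lt_mul_of_pos_right h3' h8
    have h9 : q ^ (2 * n) = q ^ n * q ^ n := by rw [two_mul, pow_add]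
    rw [h9] at h5
    exact absurd (h5.trans h6) (not_le.2 h7)
  -- type I
  have hI : E1.card ≤ 6 * L * h * (S m Q).card := by
    have h1 : E1.card * (t + 1) ≤ (S m Q).card * b := by
      calc E1.card * (t + 1) = ∑ q ∈ E1, (t + 1) := by rw [Finset.sum_const, smul_eq_mul]
        _ ≤ ∑ q ∈ E1, (T q).card := Finset.sum_le_sum (fun q hq => (Finset.mem_filter.1 hq).2)
        _ ≤ ∑ q ∈ Q, (T q).card := Finset.sum_le_sum_of_subset (Finset.filter_subset _ _)
        _ = ∑ s ∈ S m Q, (Q.filter (fun q => s ∣ D p e m q)).card :=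
            Finset.sum_card_bipartiteAbove_eq_sum_card_bipartiteBelow
              (fun q s => s ∣ D p e m q)
        _ ≤ ∑ s ∈ S m Q, b := by
            refine Finset.sum_le_sum (fun s hs => ?_)
            have hsQ := S_sub hs
            exact H.card_dvd_le (H.hQ s hsQ) (fun h => H.hpQ (h ▸ hsQ))
        _ = _ := by rw [Finset.sum_const, smul_eq_mul]
    have h2 : n < 6 * L * (t + 1) := Nat.lt_mul_div_succ n (by omega)
    have h3 : n * E1.card ≤ n * (6 * L * h * (S m Q).card) := by
      calc n * E1.card ≤ 6 * L * (t + 1) * E1.card := Nat.mul_le_mul_right _ h2.le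
        _ = 6 * L * (E1.card * (t + 1)) := by ring
        _ ≤ 6 * L * ((S m Q).card * b) := Nat.mul_le_mul_left _ h1
        _ ≤ 6 * L * ((S m Q).card * (h * n)) := by gcongr; omega
        _ = _ := by ring
    exact Nat.le_of_mul_le_mul_left h3 (by omega)
  -- type II
  have hII : ((S m Q).biUnion E2).card ≤ (S m Q).card * (2 * L * (L - 1)) := by
    refine Finset.card_biUnion_le_card_mul _ _ _ (fun s hs => ?_)
    have hsQ := S_sub hs
    have hsp : s ≠ p := fun h => H.hpQ (h ▸ hsQ)
    have hsP := H.hQ s hsQ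
    refine card_class (n := n) (b := b) (L := L) (s := s) hsP (H.ne_two hsQ) (by omega) hnL hbL
      (v s) (E2 s) (fun q hq => ?_)
    obtain ⟨hqQ, hq2⟩ := Finset.mem_filter.1 hq
    have hq3 := H.three_le hqQ
    refine ⟨H.hQ q hqQ, ?_, hq2, ?_, ?_⟩
    · intro w hw
      exact H.pow_modEq hqQ ((pow_dvd_pow s hw).trans (Nat.ordProj_dvd (D p e m q) s))
    · have h1 : v s q ≤ ∑ q ∈ Q, (D p e m q).factorization s :=
        Finset.single_le_sum (f := fun q => (D p e m q).factorization s)
          (fun _ _ => Nat.zero_le _) hqQ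
      exact h1.trans (H.sum_fact_le hsp)
    · have h1 : v s q ≠ 0 := by
        intro h0
        rw [h0, pow_zero] at hq2
        have : 3 ≤ q ^ (2 * L) := by
          calc 3 ≤ q ^ 1 := by rw [pow_one]; exact hq3
            _ ≤ _ := Nat.pow_le_pow_right (by omega) (by omega)
        omega
      have h2 : s ∣ D p e m q := Nat.dvd_of_factorization_pos h1
      exact (Nat.le_of_dvd (Nat.pos_of_ne_zero (H.D_pos hqQ)) h2).trans (H.D_lt hqQ).le
  -- type III
  have hIII : E3.card ≤ (Q.card + 2) / 2 :=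
    H.card_III hbig E3 (Finset.filter_subset _ _) (fun q hq => (Finset.mem_filter.1 hq).2)
  -- the size of `S`
  have hω : m.primeFactors.card ≤ n.primeFactors.card := by
    refine Finset.card_le_card (Nat.primeFactors_mono ?_ (by omega))
    rw [H.hn]
    exact Dvd.intro_left _ rfl
  have hS : (S m Q).card ≤ (b + 1) * n.primeFactors.card :=
    H.card_S.trans (Nat.mul_le_mul_left _ hω)
  have htot : Q.card ≤ E1.card + ((S m Q).biUnion E2).card + E3.card := by
    refine (Finset.card_le_card hcov).trans ?_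
    refine (Finset.card_union_le _ _).trans ?_
    exact Nat.add_le_add_right (Finset.card_union_le _ _) _
  -- arithmetic
  obtain ⟨l, hl⟩ : ∃ l, L = l + 1 := ⟨L - 1, by omega⟩
  have hl3 : Nat.log 2 (b + 1) + 3 = l + 3 := by omega
  have hl1 : L - 1 = l := by omega
  rw [hl3, hl]
  rw [hl1, hl] at hII
  rw [hl] at hI
  have h10 : E1.card + ((S m Q).biUnion E2).card ≤
      ((b + 1) * n.primeFactors.card) * (h * (2 * (l + 1) * (l + 3))) := by
    calc E1.card + ((S m Q).biUnion E2).card
        ≤ 6 * (l + 1) * h * (S m Q).card + (S m Q).card * (2 * (l + 1) * l) :=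
          Nat.add_le_add hI hII
      _ ≤ 6 * (l + 1) * h * (S m Q).card + (S m Q).card * (h * (2 * (l + 1) * l)) :=
          Nat.add_le_add_left (Nat.mul_le_mul_left _ (Nat.le_mul_of_pos_left _ hh)) _
      _ = (S m Q).card * (h * (2 * (l + 1) * (l + 3))) := by ring
      _ ≤ _ := Nat.mul_le_mul_right _ hS
  have h12 : 4 * h * (b + 1) * n.primeFactors.card * ((l + 1) * (l + 3)) + 2 =
      2 * (((b + 1) * n.primeFactors.card) * (h * (2 * (l + 1) * (l + 3)))) + 2 := by
    ring
  rw [h12]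
  omega

/-- the number of distinct prime factors is at most the binary logarithm -/
theorem omega_le {n : ℕ} (hn : n ≠ 0) : n.primeFactors.card ≤ Nat.log 2 n := by
  have h1 : 2 ^ n.primeFactors.card ≤ n := by
    calc 2 ^ n.primeFactors.card = ∏ l ∈ n.primeFactors, 2 := by rw [Finset.prod_const]
      _ ≤ ∏ l ∈ n.primeFactors, l := Finset.prod_le_prod' (fun l hl =>
          (Nat.prime_of_mem_primeFactors hl).two_le)
      _ ≤ n := Nat.le_of_dvd (Nat.pos_of_ne_zero hn) (Nat.prod_primeFactors_dvd n)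
  exact Nat.le_log_of_pow_le (by norm_num) h1

/-- **Main theorem.**

(1) Let `N = p ^ α * (q₁ ⋯ q_r) ^ (2 β)` be an odd perfect number (`p, q₁, …, q_r` distinct primes,
`α > 0`), where `β ≥ 19012`.  Put `n = 2 β + 1`, `l = ⌊log₂ n⌋`, and `B = 4 n (l + 2) ^ 3`.  Then
`r ≤ 4 n ω(n) (l + 1) (l + 3) + 2`, `r ≤ B` and `N < (2 (B + 1)) ^ (4 ^ (B + 1))`.

(2) Let `N = p ^ α * ∏ q ^ (a q)` be an odd perfect number (`q` runs over a finite set `Q` of
primes different from the prime `p`), where `0 < a q ≤ b` and `n ∣ a q + 1` for all `q`, where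
`n ≥ 38025` is odd and not a power of `p`, and where `b + 1 ≤ h n`.  Put `l = ⌊log₂ (b + 1)⌋`.
Then `#Q ≤ 4 h (b + 1) ω(n) (l + 1) (l + 3) + 2`. -/
theorem result :
    (∀ (N p α β : ℕ) (Q : Finset ℕ), Odd N → N.Perfect → p.Prime → 0 < α → p ∉ Q →
      (∀ q ∈ Q, q.Prime) → N = p ^ α * ∏ q ∈ Q, q ^ (2 * β) → 19012 ≤ β →
      Q.card ≤ 4 * (2 * β + 1) * (2 * β + 1).primeFactors.card *
          ((Nat.log 2 (2 * β + 1) + 1) * (Nat.log 2 (2 * β + 1) + 3)) + 2 ∧
      Q.card ≤ 4 * (2 * β + 1) * (Nat.log 2 (2 * β + 1) + 2) ^ 3 ∧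
      N < (2 * (4 * (2 * β + 1) * (Nat.log 2 (2 * β + 1) + 2) ^ 3 + 1)) ^
        (4 ^ (4 * (2 * β + 1) * (Nat.log 2 (2 * β + 1) + 2) ^ 3 + 1))) ∧
    (∀ (N p α b n h : ℕ) (Q : Finset ℕ) (a : ℕ → ℕ), Odd N → N.Perfect → p.Prime → 0 < α →
      p ∉ Q → (∀ q ∈ Q, q.Prime ∧ 0 < a q ∧ a q ≤ b ∧ n ∣ a q + 1) →
      N = p ^ α * ∏ q ∈ Q, q ^ (a q) → Odd n → 38025 ≤ n → (∀ e, n ≠ p ^ e) → b + 1 ≤ h * n →
      Q.card ≤ 4 * h * (b + 1) * n.primeFactors.card *
        ((Nat.log 2 (b + 1) + 1) * (Nat.log 2 (b + 1) + 3)) + 2) := by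
  have gen : ∀ (N p α b n h : ℕ) (Q : Finset ℕ) (a : ℕ → ℕ), Odd N → N.Perfect → p.Prime →
      0 < α → p ∉ Q → (∀ q ∈ Q, q.Prime ∧ 0 < a q ∧ a q ≤ b ∧ n ∣ a q + 1) →
      N = p ^ α * ∏ q ∈ Q, q ^ (a q) → Odd n → 38025 ≤ n → (∀ e, n ≠ p ^ e) → b + 1 ≤ h * n →
      Q.card ≤ 4 * h * (b + 1) * n.primeFactors.card *
        ((Nat.log 2 (b + 1) + 1) * (Nat.log 2 (b + 1) + 3)) + 2 := by
    intro N p α b n h Q a hodd hperf hp hα hpQ hQ hN hno hbig hpow hbh
    have hperf' : ∑ d ∈ N.divisors, d = 2 * N :=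
      (Nat.perfect_iff_sum_divisors_eq_two_mul hperf.2).1 hperf
    have hn0 : n ≠ 0 := by omega
    have hfac := Nat.ordProj_mul_ordCompl_eq_self n p
    set e := n.factorization p with he
    set m := n / p ^ e with hm
    have hm1 : 1 < m := by
      rcases Nat.lt_or_ge 1 m with h | h
      · exact h
      · exfalso
        rcases Nat.le_one_iff_eq_zero_or_eq_one.1 h with h0 | h0
        · rw [h0, mul_zero] at hfac; exact hn0 hfac.symm
        · rw [h0, mul_one] at hfac
          exact hpow e hfac.symm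
    have H : Data N p α b n e m Q a :=
      { odd := hodd, perf := hperf', hp := hp, hα := hα, hpQ := hpQ,
        hQ := fun q hq => (hQ q hq).1, ha0 := fun q hq => (hQ q hq).2.1,
        hab := fun q hq => (hQ q hq).2.2.1, han := fun q hq => (hQ q hq).2.2.2, hN := hN,
        hno := hno, hn := hfac.symm, hpm := Nat.not_dvd_ordCompl hp hn0, hm := hm1 }
    exact main H hbig hbh
  refine ⟨?_, gen⟩
  intro N p α β Q hodd hperf hp hα hpQ hQ hN hβ
  have hperf' : ∑ d ∈ N.divisors, d = 2 * N :=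
    (Nat.perfect_iff_sum_divisors_eq_two_mul hperf.2).1 hperf
  have hN0 : N ≠ 0 := by have := hperf.2; omega
  -- prime factors of `N`
  have hP : ∏ q ∈ Q, q ^ (2 * β) ≠ 0 := Finset.prod_ne_zero_iff.2 (fun q hq =>
    pow_ne_zero _ (hQ q hq).ne_zero)
  have hpN : p ∣ N := by rw [hN]; exact (dvd_pow_self p hα.ne').mul_right _
  have hpodd : Odd p := hodd.of_dvd_nat hpN
  -- `2 β + 1` is not a power of `p`
  have hpow : ∀ e, 2 * β + 1 ≠ p ^ e := by
    intro e he
    -- an auxiliary use of the data with `n = 2 β + 1`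
    have hpf : N.primeFactors = insert p Q := by
      rw [hN, Nat.primeFactors_mul (pow_ne_zero _ hp.ne_zero) hP,
        Nat.primeFactors_prime_pow hα.ne' hp, Finset.prod_pow,
        Nat.primeFactors_pow _ (by omega), Nat.primeFactors_prod hQ]
      rfl
    have hfp : ∀ s, N.factorization s = (if s = p then α else 0) +
        ∑ q ∈ Q, (if s = q then 2 * β else 0) := by
      intro s
      rw [hN, Nat.factorization_mul (pow_ne_zero _ hp.ne_zero) hP, Finsupp.add_apply,
        Nat.factorization_pow, hp.factorization, Nat.factorization_prod (fun q hq =>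
        pow_ne_zero _ (hQ q hq).ne_zero)]
      simp only [Finsupp.smul_single, smul_eq_mul, mul_one, Finsupp.single_apply,
        Finsupp.coe_finsetSum, Finset.sum_apply]
      congr 1
      · by_cases h : p = s
        · simp [h]
        · simp [h, Ne.symm h]
      · refine Finset.sum_congr rfl (fun q hq => ?_)
        rw [Nat.factorization_pow, (hQ q hq).factorization]
        by_cases h : q = s
        · simp [h]
        · simp [h, Ne.symm h]
    have hfpp : N.factorization p = α := by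
      rw [hfp, if_pos rfl, Finset.sum_eq_zero, add_zero]
      intro q hq
      have hne : p ≠ q := fun h => hpQ (h ▸ hq)
      rw [if_neg hne]
    have hfpq : ∀ q ∈ Q, N.factorization q = 2 * β := by
      intro q hq
      have hne : q ≠ p := fun h => hpQ (h ▸ hq)
      rw [hfp, if_neg hne, zero_add, Finset.sum_eq_single q]
      · simp
      · intro r _ hr
        rw [if_neg (Ne.symm hr)]
      · exact fun h => absurd hq h
    have hσ : (∑ i ∈ range (α + 1), p ^ i) * ∏ q ∈ Q, ∑ i ∈ range (2 * β + 1), q ^ i =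
        2 * (p ^ α * ∏ q ∈ Q, q ^ (2 * β)) := by
      rw [← hN, ← hperf', Nat.sum_divisors hN0, hpf, Finset.prod_insert hpQ, hfpp]
      congr 1
      exact Finset.prod_congr rfl (fun q hq => by rw [hfpq q hq])
    exact not_prime_power hp hpodd hpQ hQ hα hσ he
  have h1 := gen N p α (2 * β) (2 * β + 1) 1 Q (fun _ => 2 * β) hodd hperf hp hα hpQ
    (fun q hq => ⟨hQ q hq, by omega, le_rfl, dvd_rfl⟩) hN ⟨β, rfl⟩ (by omega) hpow (by omega)
  rw [mul_one] at h1
  have h2 : Q.card ≤ 4 * (2 * β + 1) * (Nat.log 2 (2 * β + 1) + 2) ^ 3 := by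
    refine h1.trans ?_
    have hω := omega_le (n := 2 * β + 1) (by omega)
    set l := Nat.log 2 (2 * β + 1) with hl
    set n := 2 * β + 1 with hn
    calc 4 * n * n.primeFactors.card * ((l + 1) * (l + 3)) + 2
        ≤ 4 * n * l * ((l + 1) * (l + 3)) + 2 := by gcongr
      _ ≤ 4 * n * l * ((l + 1) * (l + 3)) + 4 * n * (2 * l ^ 2 + 9 * l + 8) := by
          gcongr
          calc 2 ≤ 4 * n * 8 := by omega
            _ ≤ _ := Nat.mul_le_mul_left _ (by omega)
      _ = 4 * n * (l + 2) ^ 3 := by ring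
  refine ⟨h1, h2, ?_⟩
  have h3 := opn_bound N hodd hperf'
  have hpf : N.primeFactors = insert p Q := by
    rw [hN, Nat.primeFactors_mul (pow_ne_zero _ hp.ne_zero) hP,
      Nat.primeFactors_prime_pow hα.ne' hp, Finset.prod_pow,
      Nat.primeFactors_pow _ (by omega), Nat.primeFactors_prod hQ]
    rfl
  rw [hpf, Finset.card_insert_of_notMem hpQ] at h3
  refine h3.trans_le ?_
  set B := 4 * (2 * β + 1) * (Nat.log 2 (2 * β + 1) + 2) ^ 3 with hB
  calc (2 * (Q.card + 1)) ^ (4 ^ (Q.card + 1)) ≤ (2 * (B + 1)) ^ (4 ^ (Q.card + 1)) :=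
        Nat.pow_le_pow_left (by omega) _
    _ ≤ _ := Nat.pow_le_pow_right (by omega) (Nat.pow_le_pow_right (by norm_num) (by omega))

end Pool.Agent.Results.MP_f02ea4_nt.EqualExponents
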