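import Mathlib
import Pool.Agent.H668R3.OPN.Large

/-!
The largest prime factor `P` of an odd perfect number `N` satisfies `N < 2 ^ (P (P - 2))`, so that
`P > √(log N / log 2)`.

Proof. If `q ^ e` exactly divides `N` and `e ≥ 2` there is a prime `s` for which the order of `q` is
`e + 1` (Bang, Zsigmondy); it divides `σ(q ^ e)`, hence `N`, so that `e + 1` divides `s - 1` for a
prime factor `s` of `N`. For even `e` this gives `2 (e + 1) ≤ P - 1`, for the one odd exponent
`e + 1 ≤ P - 1`. The bound follows with an estimate `P ∏_{p ≤ P} p ≤ 4 ^ P`.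
-/

set_option autoImplicit false

namespace Pool.Agent.Results.MP_f02ea4_nt.LargestPrimeLower

open Pool.Agent.H668R3.OPN

/-- If `N` is an odd perfect number and `P` its largest prime factor then
`N < 2 ^ (P * (P - 2))`. -/
theorem result (N : ℕ) (hodd : Odd N) (hperf : N.Perfect) :
    ∃ P : ℕ, P.Prime ∧ P ∣ N ∧ (∀ q : ℕ, q.Prime → q ∣ N → q ≤ P) ∧ N < 2 ^ (P * (P - 2)) := by
  have h : OP N := ⟨hodd, (Nat.perfect_iff_sum_divisors_eq_two_mul hperf.2).1 hperf⟩
  have hne : N.primeFactors.Nonempty := Nat.nonempty_primeFactors.2 h.one_lt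
  have hP := N.primeFactors.max'_mem hne
  have hle : ∀ p ∈ N.primeFactors, p ≤ N.primeFactors.max' hne :=
    fun p hp => N.primeFactors.le_max' p hp
  refine ⟨N.primeFactors.max' hne, Nat.prime_of_mem_primeFactors hP,
    Nat.dvd_of_mem_primeFactors hP, ?_, main_large h _ hle hP⟩
  intro q hq hqN
  exact hle q (Nat.mem_primeFactors.2 ⟨hq, hqN, h.pos.ne'⟩)

end Pool.Agent.Results.MP_f02ea4_nt.LargestPrimeLower
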