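import Mathlib
import Pool.Agent.H729R3.OpnH
set_option autoImplicit false

/-! # The total number of prime factors of an odd perfect number

`Ω(N) ≥ (78 ω(N) - 147) / 29` for every odd perfect number `N`, and `Ω(N) ≥ (78 ω(N) - 69) / 29` if
moreover `3 ∤ N`.

Discharging.  Let `p ≠ 3` be a prime with `p² ∥ N`; the prime factors of `m(p) = σ(p²)` or `σ(p²)/3`
(for `p ≡ 2` or `1 (mod 3)`) are `≡ 1 (mod 3)` and divide `N`, and they pay `20` or `17` units to `p`
out of their budgets (`pay3`, `elem3`, `node5`).  Besides the counting of the exponents the proof uses: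
a prime `r` is `m(p)` for at most one `p`; the two roots of `x² + x + 1` modulo `r` add up to `r - 1`,
so at most two `p` with `m(p) = r₁ r₂`, `r₁ ≤ r₂ = r`, exist, and at most one of them is `≡ 2 (mod 3)`;
if one of the two roots modulo `r` below `r` is even and `≡ 1 (mod 3)`, then `r` has no such `p` at all
(`dead`), and this happens whenever `m(p) = r r₂`, `r < r₂`, and `r₂ = m(q)` (then
`3 r = (q-3)² + (q-3) + 1`), and whenever `r₂` has such `p` on both sides whose smaller factors are
values `m(q)` (`big`, `third`); finally `σ(p²) = σ(a²) σ(b²) c` is impossible when the three factors are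
primes and `c = σ(d²)` or `c = σ(d²)/3` (`triple`, `triple2`, in the Eisenstein integers).
Lean: helper729. -/

namespace Pool.Agent.Results.MP_f02ea4_nt.OmegaSlope

/-- `primeFactors` is the set of the prime factors, `primeFactorsList` the list of the prime factors with
multiplicity, so this says `29 Ω(N) ≥ 78 ω(N) - 147`, and `29 Ω(N) ≥ 78 ω(N) - 69` if `3 ∤ N`. -/
theorem result (N : ℕ) (hodd : Odd N) (hperf : Nat.Perfect N) :
    78 * N.primeFactors.card ≤ 29 * N.primeFactorsList.length + 147 ∧
      (¬ 3 ∣ N → 78 * N.primeFactors.card ≤ 29 * N.primeFactorsList.length + 69) := by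
  have h := Pool.Agent.H729R3.Opn.main_uniform hodd hperf
  by_cases h3 : 3 ∣ N
  · rw [if_pos h3] at h
    exact ⟨h, fun h' => absurd h3 h'⟩
  · rw [if_neg h3] at h
    exact ⟨by omega, fun _ => h⟩

end Pool.Agent.Results.MP_f02ea4_nt.OmegaSlope
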